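import Pool.Agent.L7h17.TR.Stm

set_option autoImplicit false

/-! Project TR (MP_b7f146_ag), part BND (helper63): at most four invariant ovals. -/

namespace Pool.Agent.L7h63.TR

open MvPolynomial Pool.Agent.L7h17 Pool.Agent.L7h17.TR

/-- the sheet `x` (an oval and a sign) contains the point with the coordinate `τ` over the angle
`θ₀` -/
def Sheet {k : ℕ} (E : Fin k → Set (Fin 3 → ℝ)) (θ₀ : ℝ) (x : Fin k × Bool) (τ : ℝ) : Prop :=
  (x.2 = true ∧ ![Real.cos θ₀, Real.sin θ₀, τ] ∈ E x.1) ∨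
    (x.2 = false ∧ -![Real.cos θ₀, Real.sin θ₀, τ] ∈ E x.1)

theorem count (h1 : S_LINE) {k : ℕ} {F : MvPolynomial (Fin 3) ℝ} {E : Fin k → Set (Fin 3 → ℝ)}
    (hF : F.IsHomogeneous 8) (h0 : eval ![0, 0, 1] F ≠ 0) (hE : Ovals k F E) (θ₀ : ℝ)
    (T : Finset (Fin k × Bool)) (hT : ∀ x ∈ T, ∃ τ, Sheet E θ₀ x τ) : T.card ≤ 8 := by
  classical
  obtain ⟨q, hq8, hq0, hq⟩ := h1 F hF h0 θ₀
  obtain ⟨_, _, _, hdis, hneg, hcone⟩ := hE
  choose! τ hτ using hT
  have hmap : ∀ x ∈ T, τ x ∈ q.roots.toFinset := by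
    intro x hx
    rw [Multiset.mem_toFinset, Polynomial.mem_roots hq0, Polynomial.IsRoot.def, ← hq]
    have : ![Real.cos θ₀, Real.sin θ₀, τ x] ∈ OC.realCone F := by
      rw [hcone]
      rcases hτ x hx with ⟨_, h⟩ | ⟨_, h⟩
      · exact ⟨x.1, Or.inl h⟩
      · exact ⟨x.1, Or.inr h⟩
    exact this.2
  have hinj : ∀ x ∈ T, ∀ y ∈ T, τ x = τ y → x = y := by
    intro x hx y hy he
    rcases hτ x hx with ⟨a, h⟩ | ⟨a, h⟩ <;> rcases hτ y hy with ⟨b, h'⟩ | ⟨b, h'⟩ <;>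
      rw [← he] at h'
    · have : x.1 = y.1 := by
        by_contra hne
        exact Set.disjoint_left.1 (hdis _ _ hne) h h'
      exact Prod.ext this (a.trans b.symm)
    · exact absurd h' (hneg _ _ _ h)
    · exact absurd h (hneg _ _ _ h')
    · have : x.1 = y.1 := by
        by_contra hne
        exact Set.disjoint_left.1 (hdis _ _ hne) h h'
      exact Prod.ext this (a.trans b.symm)
  calc T.card ≤ q.roots.toFinset.card :=
        Finset.card_le_card_of_injOn τ (fun x hx => hmap x hx) (fun x hx y hy h => hinj x hx y hy h)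
    _ ≤ Multiset.card q.roots := Multiset.toFinset_card_le _
    _ ≤ q.natDegree := Polynomial.card_roots' q
    _ ≤ 8 := hq8

theorem eval_smul_hom {F : MvPolynomial (Fin 3) ℝ} {n : ℕ} (hF : F.IsHomogeneous n) (c : ℝ)
    (v : Fin 3 → ℝ) : eval (c • v) F = c ^ n * eval v F := by
  classical
  rw [eval_eq', eval_eq', Finset.mul_sum]
  refine Finset.sum_congr rfl fun d hd => ?_
  have h1 : ∑ i, d i = n := by
    have := hF (mem_support_iff.1 hd)
    rw [Finsupp.weight_apply, Finsupp.sum_fintype] at this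
    · simpa using this
    · intro i
      simp
  simp only [Pi.smul_apply, smul_eq_mul, mul_pow, Finset.prod_mul_distrib,
    Finset.prod_pow_eq_pow_sum]
  rw [h1]
  ring

/-- the points of the curve are not on the axis -/
theorem off {F : MvPolynomial (Fin 3) ℝ} (hF : F.IsHomogeneous 8) (h0 : eval ![0, 0, 1] F ≠ 0)
    {w : Fin 3 → ℝ} (hw : w ∈ OC.realCone F) : w 0 ≠ 0 ∨ w 1 ≠ 0 := by
  by_contra h
  push Not at h
  have e : w = (w 2) • ![0, 0, 1] := by
    funext i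
    fin_cases i <;> simp [h.1, h.2]
  have h2 : eval w F = (w 2) ^ 8 * eval ![0, 0, 1] F := by
    conv_lhs => rw [e]
    exact eval_smul_hom hF _ _
  have h3 : w 2 ≠ 0 := by
    intro h3
    apply hw.1
    rw [e, h3, zero_smul]
  rw [hw.2] at h2
  exact mul_ne_zero (pow_ne_zero 8 h3) h0 h2.symm

/-- scaling to a point over a direction -/
theorem scale {w : Fin 3 → ℝ} (hw : w 0 ≠ 0 ∨ w 1 ≠ 0) :
    ∃ (c θ₀ τ : ℝ), 0 < c ∧ c • w = ![Real.cos θ₀, Real.sin θ₀, τ] := by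
  set z : ℂ := ⟨w 0, w 1⟩ with hz
  have hz0 : z ≠ 0 := by
    intro h
    rcases hw with hw | hw
    · exact hw (by simpa [hz] using congrArg Complex.re h)
    · exact hw (by simpa [hz] using congrArg Complex.im h)
  have hn : 0 < ‖z‖ := norm_pos_iff.2 hz0
  refine ⟨‖z‖⁻¹, Complex.arg z, ‖z‖⁻¹ * w 2, inv_pos.2 hn, ?_⟩
  funext i
  fin_cases i
  · show ‖z‖⁻¹ * w 0 = Real.cos (Complex.arg z)
    rw [Complex.cos_arg hz0]
    have e : z.re = w 0 := rfl
    rw [e]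
    ring
  · show ‖z‖⁻¹ * w 1 = Real.sin (Complex.arg z)
    rw [Complex.sin_arg]
    have e : z.im = w 1 := rfl
    rw [e]
    ring
  · rfl

theorem s_BND (h1 : S_LINE) (h2 : S_SEC) : S_BND := by
  classical
  intro k F E θ hF h0 hθ hE s hs
  have hE' := hE
  obtain ⟨hcon, _, hsc, _, _, hcone⟩ := hE'
  have hoff : ∀ i, ∀ w ∈ E i, w 0 ≠ 0 ∨ w 1 ≠ 0 := fun i w hw =>
    off hF h0 ((hcone w).2 ⟨i, Or.inl hw⟩)
  have hsec : ∀ i ∈ s, ∀ θ₀ : ℝ, ∃ τ : ℝ, ![Real.cos θ₀, Real.sin θ₀, τ] ∈ E i := fun i hi θ₀ =>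
    h2 θ 3 hθ (by norm_num) (E i) (hcon i) (hoff i) (hsc i) (hs i hi) θ₀
  have hsheet : ∀ θ₀ : ℝ, ∀ x ∈ s ×ˢ (Finset.univ : Finset Bool), ∃ τ, Sheet E θ₀ x τ := by
    rintro θ₀ ⟨i, b⟩ hx
    have hi : i ∈ s := (Finset.mem_product.1 hx).1
    cases b with
    | true =>
      obtain ⟨τ, h⟩ := hsec i hi θ₀
      exact ⟨τ, Or.inl ⟨rfl, h⟩⟩
    | false =>
      obtain ⟨τ, h⟩ := hsec i hi (θ₀ + Real.pi)
      refine ⟨-τ, Or.inr ⟨rfl, ?_⟩⟩
      have e : -![Real.cos θ₀, Real.sin θ₀, -τ] =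
          ![Real.cos (θ₀ + Real.pi), Real.sin (θ₀ + Real.pi), τ] := by
        funext l
        fin_cases l <;> simp [Real.cos_add_pi, Real.sin_add_pi]
      rw [e]
      exact h
  have hcard : (s ×ˢ (Finset.univ : Finset Bool)).card = s.card * 2 := by
    rw [Finset.card_product]
    simp
  refine ⟨?_, fun h4 j => ?_⟩
  · have := count h1 hF h0 hE 0 _ (hsheet 0)
    omega
  · by_contra hj
    obtain ⟨w, hw⟩ := (hcon j).nonempty
    obtain ⟨c, θ₀, τ, hc, hcw⟩ := scale (hoff j w hw)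
    have hin : ![Real.cos θ₀, Real.sin θ₀, τ] ∈ E j := by
      rw [← hcw]
      exact hsc j w hw c hc
    have hnot : (j, true) ∉ s ×ˢ (Finset.univ : Finset Bool) := fun h =>
      hj (Finset.mem_product.1 h).1
    have := count h1 hF h0 hE θ₀ (insert (j, true) (s ×ˢ (Finset.univ : Finset Bool))) (by
      intro x hx
      rcases Finset.mem_insert.1 hx with rfl | hx
      · exact ⟨τ, Or.inl ⟨rfl, hin⟩⟩
      · exact hsheet θ₀ x hx)
    rw [Finset.card_insert_of_notMem hnot] at this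
    omega

end Pool.Agent.L7h63.TR
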